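import Pool.Agent.MP_ddc23f_ag.H55.Final

open Pool.Agent.MP_ddc23f_ag.H75 Pool.Agent.MP_ddc23f_ag.H55

/-- A set of points with a unique irreducible unexpected curve of degree 10 with a general point of
multiplicity 9 and non-free dual arrangement, such that no finite overset sharing the curve has a
free dual arrangement. -/
theorem Pool.Agent.Results.MP_ddc23f_ag.Decic.result (k : Type) [Field k] [IsAlgClosed k]
    [CharZero k] :
    ∃ Z : Finset (Projectivization k (Fin 3 → k)), Unexpected Z 10 9 ∧
      (General fun P => Module.finrank k (degPart (fatIdeal Z 9 P) 10) = 1 ∧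
        ∀ F ∈ degPart (fatIdeal Z 9 P) 10, F ≠ 0 → Irreducible F) ∧
      ¬ DualFree Z ∧
      ∀ Z' : Finset (Projectivization k (Fin 3 → k)), Z ⊆ Z' → Shares Z Z' 10 9 →
        ¬ DualFree Z' := by
  refine ⟨Zc k, unexpected, general_unique, not_free, fun Z' h1 h2 => ?_⟩
  rw [Finset.Subset.antisymm (maximal Z' h2.2) h1]
  exact not_free
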